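import Pool.Agent.Y785.TD.Sets2

set_option autoImplicit false

open Pool.Agent.Helper227 Pool.Agent.Y785.TD MeasureTheory
open scoped ENNReal

namespace Pool.Agent.Results.MP_2976e9_lc.OppositeTails

/-- The two deficiencies are finite at `X` and at `Y` and order them in opposite ways, by a margin
of at least `c`. -/
def Opposite (tE tP : (ℕ → Bool) → ℝ≥0∞) (c : ℝ) (X Y : ℕ → Bool) : Prop :=
  (tE X ≠ 0 ∧ tE X ≠ ∞ ∧ tE Y ≠ 0 ∧ tE Y ≠ ∞ ∧ tP X ≠ 0 ∧ tP X ≠ ∞ ∧ tP Y ≠ 0 ∧ tP Y ≠ ∞) ∧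
    defi tE X ≥ defi tE Y + c ∧ defi tP Y ≥ defi tP X + c

/-- Universal expectation-bounded and probability-bounded tests and Martin-Löf random sequences
exist. For every choice of the universal tests and every constant `c`:
(a) there are two effectively closed classes of positive measure such that every member `X` of the
first and every member `Y` of the second are ordered in opposite ways by the two deficiencies, by a
margin `c`: `d_E(X) ≥ d_E(Y) + c` and `d_P(Y) ≥ d_P(X) + c`;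
(b) for every two Martin-Löf random sequences `Z`, `W` (in particular for `Z = W`) and every `n`
there are `i, j ≥ n` such that the (again Martin-Löf random) tails `X = Z(i) Z(i+1) ...` and
`Y = W(j) W(j+1) ...` are ordered in opposite ways by the two deficiencies, by a margin `c`. -/
theorem result :
    (∃ tE : (ℕ → Bool) → ℝ≥0∞, IsUnivE tE) ∧ (∃ tP : (ℕ → Bool) → ℝ≥0∞, IsUnivP tP) ∧
    (∃ Z : ℕ → Bool, MLRandom Z) ∧
    ∀ tE tP : (ℕ → Bool) → ℝ≥0∞, IsUnivE tE → IsUnivP tP → ∀ c : ℝ,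
      (∃ U V : Set (List Bool), (REPred fun σ => σ ∈ U) ∧ (REPred fun σ => σ ∈ V) ∧
        0 < lam {X | ∀ s, (List.range s).map X ∉ U} ∧
        0 < lam {Y | ∀ s, (List.range s).map Y ∉ V} ∧
        ∀ X Y : ℕ → Bool, (∀ s, (List.range s).map X ∉ U) → (∀ s, (List.range s).map Y ∉ V) →
          Opposite tE tP c X Y) ∧
      ∀ Z W : ℕ → Bool, MLRandom Z → MLRandom W → ∀ n : ℕ, ∃ i, n ≤ i ∧ ∃ j, n ≤ j ∧
        MLRandom (fun k => Z (k + i)) ∧ MLRandom (fun k => W (k + j)) ∧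
        Opposite tE tP c (fun k => Z (k + i)) (fun k => W (k + j)) := by
  refine ⟨⟨_, isUnivE_tE⟩, ⟨_, isUnivP_tP⟩, ae_MLRandom.exists, fun tE tP hE hP c => ?_⟩
  obtain ⟨m, hm⟩ := exists_nat_ge c
  obtain ⟨D1, D2, s1, s2, m1, m2, hXY⟩ := td_sets hE hP m
  have hopp : ∀ X Y : ℕ → Bool, (∀ s, ¬ D1 (pre X s)) → (∀ s, ¬ D2 (pre Y s)) →
      Opposite tE tP c X Y := by
    intro X Y hX hY
    obtain ⟨h1, h2, h3⟩ := hXY X Y hX hY
    exact ⟨h1, by linarith, by linarith⟩
  have hpos : ∀ D : List Bool → Prop, lam {X | ∃ s, D (pre X s)} < 1 →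
      0 < lam {X | ∀ s, ¬ D (pre X s)} := by
    intro D hD
    by_contra h
    have h0 : lam {X | ∀ s, ¬ D (pre X s)} = 0 := by simpa using h
    have h1 : (Set.univ : Set (ℕ → Bool)) = {X | ∃ s, D (pre X s)} ∪ {X | ∀ s, ¬ D (pre X s)} := by
      ext X
      simp only [Set.mem_univ, Set.mem_union, Set.mem_ofPred_eq, true_iff]
      by_cases h2 : ∃ s, D (pre X s)
      · exact Or.inl h2
      · exact Or.inr (by simpa using h2)
    have h2 : lam (Set.univ : Set (ℕ → Bool)) = 1 := measure_univ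
    rw [h1] at h2
    have h3 := measure_union_le (μ := lam) {X | ∃ s, D (pre X s)} {X | ∀ s, ¬ D (pre X s)}
    rw [h2, h0, add_zero] at h3
    exact absurd hD (not_lt.2 h3)
  refine ⟨⟨{σ | D1 σ}, {σ | D2 σ}, s1.re, s2.re, hpos D1 m1, hpos D2 m2, hopp⟩, ?_⟩
  intro Z W hZ hW n
  obtain ⟨i, hi⟩ := kucera_tail s1 m1 (mlrandom_tail hZ n)
  obtain ⟨j, hj⟩ := kucera_tail s2 m2 (mlrandom_tail hW n)
  have e : ∀ (Z : ℕ → Bool) (i : ℕ), tl i (tl n Z) = fun k => Z (k + (i + n)) := by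
    intro Z i
    funext k
    change Z (k + i + n) = Z (k + (i + n))
    rw [Nat.add_assoc]
  rw [e] at hi hj
  exact ⟨i + n, Nat.le_add_left _ _, j + n, Nat.le_add_left _ _, mlrandom_tail hZ _,
    mlrandom_tail hW _, hopp _ _ hi hj⟩

end Pool.Agent.Results.MP_2976e9_lc.OppositeTails
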